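import Pool.Agent.Helper35.TemporalMain

set_option autoImplicit false

namespace Pool.Agent.Results.MP_4e4764_co.TemporalFourColouring

/-- Grow pace 1: between consecutive snapshots at most one edge is added and at most one edge is
removed. -/
def GrowPaceOne {V : Type*} {T : ℕ} (G : Fin T → SimpleGraph V) : Prop :=
  ∀ i j : Fin T, (j : ℕ) = i + 1 →
    ((G j).edgeSet \ (G i).edgeSet).encard ≤ 1 ∧ ((G i).edgeSet \ (G j).edgeSet).encard ≤ 1

/-- `c` on the snapshot `G` and `c'` on the next snapshot `G'` are compatible: for every edge `xy`
of `G ∪ G'`, no colour of `x` (old or new) equals a colour of `y` (old or new). -/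
def Compatible {V : Type*} {k : ℕ} (G G' : SimpleGraph V) (c c' : V → Fin k) : Prop :=
  ∀ x y, (G ⊔ G').Adj x y → c x ≠ c y ∧ c x ≠ c' y ∧ c' x ≠ c y ∧ c' x ≠ c' y

/-- Temporal colourings: each `c j` is a proper colouring of the snapshot `G j`, and consecutive
colourings are compatible. -/
def IsTemporalColouring {V : Type*} {T k : ℕ} (G : Fin T → SimpleGraph V)
    (c : Fin T → V → Fin k) : Prop :=
  (∀ j x y, (G j).Adj x y → c j x ≠ c j y) ∧
    ∀ i j : Fin T, (j : ℕ) = i + 1 → Compatible (G i) (G j) (c i) (c j)

/-- Every temporal graph with grow pace 1 and bipartite snapshots has a temporal 4-colouring. -/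
theorem result {V : Type*} [Finite V] {T : ℕ} (G : Fin T → SimpleGraph V)
    (hbip : ∀ j, (G j).IsBipartite) (hpace : GrowPaceOne G) :
    ∃ c : Fin T → V → Fin 4, IsTemporalColouring G c := by
  classical
  rcases Nat.eq_zero_or_pos T with hT | hT
  · subst hT
    exact ⟨fun j => j.elim0, fun j => j.elim0, fun j => j.elim0⟩
  let idx : ℕ → Fin T := fun j => ⟨min j (T - 1), by omega⟩
  have hidx : ∀ j : Fin T, idx j = j := fun j => Fin.ext (by simp only [idx]; omega)
  obtain ⟨C, hC⟩ := Pool.Agent.Helper35.Temporal.main (fun j => (G (idx j)).edgeSet)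
    (by
      intro j
      obtain ⟨f⟩ := hbip (idx j)
      refine ⟨fun v => decide (f v = 0), ?_⟩
      intro e he
      induction e using Sym2.ind with
      | _ x y =>
        rw [SimpleGraph.mem_edgeSet] at he
        have h1 := f.valid he
        rw [Pool.Agent.Helper35.Temporal.d_true_iff]
        intro h2
        apply h1
        have h3 : (f x = 0) ↔ (f y = 0) := by simpa using h2
        generalize f x = p at h3 ⊢
        generalize f y = q at h3 ⊢
        revert p q
        decide)
    (by
      intro j
      by_cases hj : j + 1 < T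
      · exact Set.encard_le_one_iff_subsingleton.1
          (hpace (idx j) (idx (j + 1)) (by simp only [idx]; omega)).1
      · have : idx (j + 1) = idx j := Fin.ext (by simp only [idx]; omega)
        rw [this]
        simp)
    (by
      intro j
      by_cases hj : j + 1 < T
      · exact Set.encard_le_one_iff_subsingleton.1
          (hpace (idx j) (idx (j + 1)) (by simp only [idx]; omega)).2
      · have : idx (j + 1) = idx j := Fin.ext (by simp only [idx]; omega)
        rw [this]
        simp)
  have hcard : Fintype.card (Bool × Bool) = 4 := by decide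
  let φ : Bool × Bool ≃ Fin 4 := Fintype.equivFinOfCardEq hcard
  refine ⟨fun j x => φ (C j x), fun j x y hxy => ?_, fun i j hij x y hxy => ?_⟩
  · have := hC j x y (Or.inl (by rw [hidx]; exact hxy))
    simpa only [ne_eq, φ.injective.eq_iff] using this.1
  · have h1 : C ((i : ℕ) + 1) = C (j : ℕ) := by rw [hij]
    have h2 : idx ((i : ℕ) + 1) = j := by rw [← hij]; exact hidx j
    have := hC i x y (by
      rw [SimpleGraph.sup_adj] at hxy
      rw [hidx, h2]
      exact hxy)
    rw [h1] at this
    simpa only [ne_eq, φ.injective.eq_iff] using this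

end Pool.Agent.Results.MP_4e4764_co.TemporalFourColouring
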